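import Mathlib

set_option autoImplicit false

/-!
# Sums and differences of elements of two sets of density one half: almost periods

`E` and `D` are sets of natural numbers which have density at least `1/2 - ε` in every long interval, and many `h` have few
representations as a sum of an element of `E` and an element of `D`. Then `D` is almost invariant under many translations,
and its complement contains patterns `x, x + s₁, ..., x + s_n` for all multiples `s_i` of a fixed number. The same for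
differences.
-/

namespace Pool.Agent.HP27.TG

open Finset Classical

/-- the number of the elements of `D` in `(u, u + T]` -/
noncomputable def cnt (D : Set ℕ) (u T : ℕ) : ℕ := ((Ioc u (u + T)).filter (fun x => x ∈ D)).card

/-- the number of the representations of `h` as a sum of a positive element of `E` and a positive element of `D` -/
noncomputable def rep (E D : Set ℕ) (h : ℕ) : ℕ := ((Ioo 0 h).filter (fun x => x ∈ E ∧ h - x ∈ D)).card

/-- the number of the `x ≤ X` in `E` with `x + h` in `D` -/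
noncomputable def repd (E D : Set ℕ) (X h : ℕ) : ℕ := ((Ioc 0 X).filter (fun x => x ∈ E ∧ x + h ∈ D)).card

theorem refl_card (P : ℕ → Prop) (h : ℕ) :
    ((Ioo 0 h).filter (fun x => P (h - x))).card = ((Ioo 0 h).filter P).card := by
  apply card_bij (fun x _ => h - x)
  · intro x hx
    rw [mem_filter, mem_Ioo] at hx ⊢
    exact ⟨⟨by omega, by omega⟩, hx.2⟩
  · intro x hx y hy hxy
    rw [mem_filter, mem_Ioo] at hx hy
    omega
  · intro y hy
    rw [mem_filter, mem_Ioo] at hy
    refine ⟨h - y, ?_, by omega⟩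
    rw [mem_filter, mem_Ioo]
    refine ⟨⟨by omega, by omega⟩, ?_⟩
    have : h - (h - y) = y := by omega
    rw [this]
    exact hy.2

theorem agree {E D : Set ℕ} {ε c : ℝ} {L₀ : ℕ} (hε : 0 ≤ ε) (hE : ∀ T : ℕ, L₀ ≤ T → ∀ u, (1 / 2 - ε) * T ≤ cnt E u T)
    (hD : ∀ T : ℕ, L₀ ≤ T → ∀ u, (1 / 2 - ε) * T ≤ cnt D u T)
    {h : ℕ} (hh : L₀ + 1 ≤ h) (hr : (rep E D h : ℝ) ≤ c * h) :
    (((Ioo 0 h).filter (fun x => (x ∈ E ↔ h - x ∈ D))).card : ℝ) ≤ 2 * (ε + c) * h := by
  have hIoo : Ioc 0 (0 + (h - 1)) = Ioo 0 h := by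
    ext x
    simp only [mem_Ioc, mem_Ioo]
    omega
  obtain ⟨A, hA⟩ : ∃ A, A = ((Ioo 0 h).filter (fun x => x ∈ E)).card := ⟨_, rfl⟩
  obtain ⟨B, hB'⟩ : ∃ B, B = ((Ioo 0 h).filter (fun x => x ∈ D)).card := ⟨_, rfl⟩
  have hA' : (1 / 2 - ε) * ((h - 1 : ℕ) : ℝ) ≤ A := by
    have := hE (h - 1) (by omega) 0
    unfold cnt at this
    rwa [hIoo, ← hA] at this
  have hB'' : (1 / 2 - ε) * ((h - 1 : ℕ) : ℝ) ≤ B := by
    have := hD (h - 1) (by omega) 0
    unfold cnt at this
    rwa [hIoo, ← hB'] at this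
  have hB : ((Ioo 0 h).filter (fun x => h - x ∈ D)).card = B := by
    rw [hB', refl_card (fun x => x ∈ D) h]
  -- counting
  have h1 : ((Ioo 0 h).filter (fun x => (x ∈ E ↔ h - x ∈ D))).card + (A + B) = (h - 1) + 2 * rep E D h := by
    have e0 : (Ioo 0 h).card = h - 1 := by rw [Nat.card_Ioo]; omega
    have e1 : ((Ioo 0 h).filter (fun x => (x ∈ E ↔ h - x ∈ D))).card =
        ∑ x ∈ Ioo 0 h, (if (x ∈ E ↔ h - x ∈ D) then 1 else 0) := by rw [card_filter]
    have e2 : A = ∑ x ∈ Ioo 0 h, (if x ∈ E then 1 else 0) := by rw [hA, card_filter]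
    have e3 : B = ∑ x ∈ Ioo 0 h, (if h - x ∈ D then 1 else 0) := by rw [← hB, card_filter]
    have e4 : rep E D h = ∑ x ∈ Ioo 0 h, (if x ∈ E ∧ h - x ∈ D then 1 else 0) := by unfold rep; rw [card_filter]
    have e5 : h - 1 = ∑ x ∈ Ioo 0 h, 1 := by rw [← e0, card_eq_sum_ones]
    calc _ = ∑ x ∈ Ioo 0 h, ((if (x ∈ E ↔ h - x ∈ D) then 1 else 0) +
          ((if x ∈ E then 1 else 0) + (if h - x ∈ D then 1 else 0))) := by
          rw [sum_add_distrib, sum_add_distrib, ← e1, ← e2, ← e3]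
      _ = ∑ x ∈ Ioo 0 h, (1 + 2 * (if x ∈ E ∧ h - x ∈ D then 1 else 0)) := by
          apply sum_congr rfl
          intro x _
          by_cases hx : x ∈ E <;> by_cases hy : h - x ∈ D <;> simp [hx, hy]
      _ = _ := by rw [sum_add_distrib, ← mul_sum, ← e4, ← e5]
  have h2 : (((Ioo 0 h).filter (fun x => (x ∈ E ↔ h - x ∈ D))).card : ℝ) + (A + B) =
      ((h - 1 : ℕ) : ℝ) + 2 * (rep E D h : ℝ) := by exact_mod_cast h1
  have h3 : ((h - 1 : ℕ) : ℝ) ≤ h := by exact_mod_cast Nat.sub_le h 1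
  have h4 : (0 : ℝ) ≤ ((h - 1 : ℕ) : ℝ) := Nat.cast_nonneg _
  nlinarith

theorem agreed {E D : Set ℕ} {ε c : ℝ} {L₀ : ℕ} (hE : ∀ T : ℕ, L₀ ≤ T → ∀ u, (1 / 2 - ε) * T ≤ cnt E u T)
    (hD : ∀ T : ℕ, L₀ ≤ T → ∀ u, (1 / 2 - ε) * T ≤ cnt D u T)
    {X h : ℕ} (hX : L₀ ≤ X) (hr : (repd E D X h : ℝ) ≤ c * X) :
    (((Ioc 0 X).filter (fun x => (x ∈ E ↔ x + h ∈ D))).card : ℝ) ≤ 2 * (ε + c) * X := by
  obtain ⟨A, hA⟩ : ∃ A, A = ((Ioc 0 X).filter (fun x => x ∈ E)).card := ⟨_, rfl⟩
  obtain ⟨B, hB⟩ : ∃ B, B = ((Ioc 0 X).filter (fun x => x + h ∈ D)).card := ⟨_, rfl⟩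
  have hA' : (1 / 2 - ε) * (X : ℝ) ≤ A := by
    have := hE X hX 0
    unfold cnt at this
    rwa [zero_add, ← hA] at this
  have hB' : (1 / 2 - ε) * (X : ℝ) ≤ B := by
    have := hD X hX h
    refine this.trans (le_of_eq ?_)
    unfold cnt
    rw [hB]
    congr 1
    symm
    apply card_bij (fun x _ => x + h)
    · intro x hx
      rw [mem_filter, mem_Ioc] at hx ⊢
      exact ⟨⟨by omega, by omega⟩, hx.2⟩
    · intro x _ y _ hxy
      omega
    · intro y hy
      rw [mem_filter, mem_Ioc] at hy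
      refine ⟨y - h, ?_, by omega⟩
      rw [mem_filter, mem_Ioc]
      have : y - h + h = y := by omega
      rw [this]
      exact ⟨⟨by omega, by omega⟩, hy.2⟩
  have h1 : ((Ioc 0 X).filter (fun x => (x ∈ E ↔ x + h ∈ D))).card + (A + B) = X + 2 * repd E D X h := by
    have e0 : (Ioc 0 X).card = X := by rw [Nat.card_Ioc]; omega
    have e1 : ((Ioc 0 X).filter (fun x => (x ∈ E ↔ x + h ∈ D))).card =
        ∑ x ∈ Ioc 0 X, (if (x ∈ E ↔ x + h ∈ D) then 1 else 0) := by rw [card_filter]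
    have e2 : A = ∑ x ∈ Ioc 0 X, (if x ∈ E then 1 else 0) := by rw [hA, card_filter]
    have e3 : B = ∑ x ∈ Ioc 0 X, (if x + h ∈ D then 1 else 0) := by rw [hB, card_filter]
    have e4 : repd E D X h = ∑ x ∈ Ioc 0 X, (if x ∈ E ∧ x + h ∈ D then 1 else 0) := by unfold repd; rw [card_filter]
    have e5 : X = ∑ x ∈ Ioc 0 X, 1 := by rw [← card_eq_sum_ones, e0]
    calc _ = ∑ x ∈ Ioc 0 X, ((if (x ∈ E ↔ x + h ∈ D) then 1 else 0) +
          ((if x ∈ E then 1 else 0) + (if x + h ∈ D then 1 else 0))) := by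
          rw [sum_add_distrib, sum_add_distrib, ← e1, ← e2, ← e3]
      _ = ∑ x ∈ Ioc 0 X, (1 + 2 * (if x ∈ E ∧ x + h ∈ D then 1 else 0)) := by
          apply sum_congr rfl
          intro x _
          by_cases hx : x ∈ E <;> by_cases hy : x + h ∈ D <;> simp [hx, hy]
      _ = _ := by rw [sum_add_distrib, ← mul_sum, ← e4, ← e5]
  have h2 : (((Ioc 0 X).filter (fun x => (x ∈ E ↔ x + h ∈ D))).card : ℝ) + (A + B) =
      (X : ℝ) + 2 * (repd E D X h : ℝ) := by exact_mod_cast h1
  nlinarith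

theorem shiftinv (E D : Set ℕ) (h d : ℕ) :
    ((Ioo 0 h).filter (fun y => ¬ (y ∈ D ↔ y + d ∈ D))).card ≤
      ((Ioo 0 h).filter (fun x => (x ∈ E ↔ h - x ∈ D))).card +
      ((Ioo 0 (h + d)).filter (fun x => (x ∈ E ↔ (h + d) - x ∈ D))).card := by
  have h1 : ((Ioo 0 h).filter (fun y => ¬ (y ∈ D ↔ y + d ∈ D))).card ≤
      (((Ioo 0 h).filter (fun x => (x ∈ E ↔ h - x ∈ D))) ∪
      ((Ioo 0 (h + d)).filter (fun x => (x ∈ E ↔ (h + d) - x ∈ D)))).card := by
    apply card_le_card_of_injOn (fun y => h - y)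
    · intro y hy
      rw [mem_coe, mem_filter, mem_Ioo] at hy
      rw [mem_coe, mem_union, mem_filter, mem_filter, mem_Ioo, mem_Ioo]
      beta_reduce
      obtain ⟨⟨hy1, hy2⟩, hy3⟩ := hy
      have e1 : h - (h - y) = y := by omega
      have e2 : h + d - (h - y) = y + d := by omega
      rw [e1, e2]
      by_cases hx : (h - y ∈ E ↔ y ∈ D)
      · left
        exact ⟨⟨by omega, by omega⟩, hx⟩
      · right
        refine ⟨⟨by omega, by omega⟩, ?_⟩
        tauto
    · intro x hx y hy hxy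
      rw [mem_coe, mem_filter, mem_Ioo] at hx hy
      have : h - x = h - y := hxy
      omega
  exact h1.trans (card_union_le _ _)

theorem shiftinvd (E D : Set ℕ) (X V h d : ℕ) (hV : h ≤ V) :
    ((Ioc V X).filter (fun y => ¬ (y ∈ D ↔ y + d ∈ D))).card ≤
      ((Ioc 0 X).filter (fun x => (x ∈ E ↔ x + h ∈ D))).card +
      ((Ioc 0 X).filter (fun x => (x ∈ E ↔ x + (h + d) ∈ D))).card := by
  have h1 : ((Ioc V X).filter (fun y => ¬ (y ∈ D ↔ y + d ∈ D))).card ≤
      (((Ioc 0 X).filter (fun x => (x ∈ E ↔ x + h ∈ D))) ∪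
      ((Ioc 0 X).filter (fun x => (x ∈ E ↔ x + (h + d) ∈ D)))).card := by
    apply card_le_card_of_injOn (fun y => y - h)
    · intro y hy
      rw [mem_coe, mem_filter, mem_Ioc] at hy
      rw [mem_coe, mem_union, mem_filter, mem_filter, mem_Ioc]
      beta_reduce
      obtain ⟨⟨hy1, hy2⟩, hy3⟩ := hy
      have e1 : y - h + h = y := by omega
      have e2 : y - h + (h + d) = y + d := by omega
      rw [e1, e2]
      by_cases hx : (y - h ∈ E ↔ y ∈ D)
      · left
        exact ⟨⟨by omega, by omega⟩, hx⟩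
      · right
        refine ⟨⟨by omega, by omega⟩, ?_⟩
        tauto
    · intro x hx y hy hxy
      rw [mem_coe, mem_filter, mem_Ioc] at hx hy
      have : x - h = y - h := hxy
      omega
  exact h1.trans (card_union_le _ _)

theorem iter (D : Set ℕ) (d V R : ℕ) : ∀ w R' : ℕ, R' + w * d ≤ R →
    ((Ioc V R').filter (fun y => ¬ (y ∈ D ↔ y + w * d ∈ D))).card ≤
      w * ((Ioc V R).filter (fun y => ¬ (y ∈ D ↔ y + d ∈ D))).card := by
  intro w
  induction w with
  | zero =>
    intro R' _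
    simp
  | succ w ih =>
    intro R' hR
    have h1 := ih R' (by nlinarith)
    have h2 : ((Ioc V R').filter (fun y => ¬ (y + w * d ∈ D ↔ y + w * d + d ∈ D))).card ≤
        ((Ioc V R).filter (fun y => ¬ (y ∈ D ↔ y + d ∈ D))).card := by
      apply card_le_card_of_injOn (fun y => y + w * d)
      · intro y hy
        rw [mem_coe, mem_filter, mem_Ioc] at hy
        rw [mem_coe, mem_filter, mem_Ioc]
        beta_reduce
        refine ⟨⟨by omega, ?_⟩, hy.2⟩
        have := hy.1.2
        nlinarith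
      · intro x _ y _ hxy
        have : x + w * d = y + w * d := hxy
        omega
    have h3 : ((Ioc V R').filter (fun y => ¬ (y ∈ D ↔ y + (w + 1) * d ∈ D))) ⊆
        ((Ioc V R').filter (fun y => ¬ (y ∈ D ↔ y + w * d ∈ D))) ∪
        ((Ioc V R').filter (fun y => ¬ (y + w * d ∈ D ↔ y + w * d + d ∈ D))) := by
      intro y hy
      rw [mem_filter] at hy
      rw [mem_union, mem_filter, mem_filter]
      have e : y + (w + 1) * d = y + w * d + d := by ring
      rw [e] at hy
      by_cases hx : (y ∈ D ↔ y + w * d ∈ D)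
      · right
        refine ⟨hy.1, ?_⟩
        tauto
      · left
        exact ⟨hy.1, hx⟩
    calc _ ≤ _ := card_le_card h3
      _ ≤ _ := card_union_le _ _
      _ ≤ _ := add_le_add h1 h2
      _ = _ := by ring

/-- two elements of a dense set whose difference is a small multiple of `s` -/
theorem pigeon {H : Finset ℕ} {u T t s : ℕ} (hH : ∀ h ∈ H, u < h ∧ h ≤ u + T)
    (hcard : T + t * s < (t + 1) * H.card) : ∃ r, 1 ≤ r ∧ r ≤ t ∧ ∃ h ∈ H, h + r * s ∈ H := by
  by_contra hcon
  push Not at hcon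
  have h1 : ((range (t + 1)) ×ˢ H).card ≤ (Ioc u (u + T + t * s)).card := by
    apply card_le_card_of_injOn (fun z => z.2 + z.1 * s)
    · rintro ⟨i, h⟩ hz
      rw [mem_coe, mem_product, mem_range] at hz
      have hz1 : i < t + 1 := hz.1
      have hz2 := hH h hz.2
      rw [mem_coe, mem_Ioc]
      show u < h + i * s ∧ h + i * s ≤ u + T + t * s
      have : i * s ≤ t * s := Nat.mul_le_mul_right s (by omega)
      constructor <;> omega
    · rintro ⟨i, h⟩ hz ⟨j, h'⟩ hz' he
      rw [mem_coe, mem_product, mem_range] at hz hz'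
      have hi : i < t + 1 := hz.1
      have hj : j < t + 1 := hz'.1
      have hh : h ∈ H := hz.2
      have hh' : h' ∈ H := hz'.2
      have he' : h + i * s = h' + j * s := he
      rcases lt_trichotomy i j with hij | hij | hij
      · exfalso
        refine hcon (j - i) (by omega) (by omega) h' hh' ?_
        have : h' + (j - i) * s = h := by
          have e : j * s = (j - i) * s + i * s := by rw [← add_mul]; congr 1; omega
          omega
        rwa [this]
      · subst hij
        rw [Prod.mk.injEq]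
        exact ⟨rfl, by omega⟩
      · exfalso
        refine hcon (i - j) (by omega) (by omega) h hh ?_
        have : h + (i - j) * s = h' := by
          have e : i * s = (i - j) * s + j * s := by rw [← add_mul]; congr 1; omega
          omega
        rwa [this]
  rw [card_product, card_range, Nat.card_Ioc] at h1
  have : u + T + t * s - u = T + t * s := by omega
  omega

end Pool.Agent.HP27.TG
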