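import Mathlib
import Pool.Agent.HP27.TG.Core

set_option autoImplicit false

/-!
# Sums and differences of elements of two sets of density one half: patterns in the complement
-/

namespace Pool.Agent.HP27.TG

open Finset Classical

/-- density at least `1/2 - ε` in all long intervals -/
def Half (ε : ℝ) (L₀ : ℕ) (D : Set ℕ) : Prop := ∀ T : ℕ, L₀ ≤ T → ∀ u, (1 / 2 - ε) * T ≤ cnt D u T

/-- a proportion `δ` of the numbers of arbitrarily long intervals have few representations as sums -/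
def Bad (δ c : ℝ) (E D : Set ℕ) : Prop := ∀ T₁ : ℕ, ∃ T ≥ T₁, ∃ u : ℕ,
  δ * T < (((Ioc u (u + T)).filter (fun h => (rep E D h : ℝ) < c * h)).card : ℝ)

/-- a proportion `δ` of the numbers of arbitrarily long intervals have few representations as differences -/
def Badd (δ c : ℝ) (E D : Set ℕ) : Prop := ∀ T₁ : ℕ, ∃ T ≥ T₁, ∃ u X : ℕ, 2 * (u + T) ≤ X ∧
  δ * T < (((Ioc u (u + T)).filter (fun h => (repd E D X h : ℝ) < c * X)).card : ℝ)

/-- the union bound -/
theorem union_bound {D : Set ℕ} {V R m n₀ : ℕ} {c X δ : ℝ} (hm : 1 ≤ m) (hc : 0 < c) (hX : 0 < X) (hδ : 0 < δ)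
    (hδ1 : δ ≤ 1) (hcs : c * (800 * m * (n₀ + 1)) ≤ δ) {F : Finset ℕ} (hF : F.card ≤ n₀)
    (hper : ∀ s ∈ F, (((Ioc V R).filter (fun y => ¬ (y ∈ D ↔ y + s ∈ D))).card : ℝ) ≤ m * (8 * c * X))
    (hcomp : (1 / 2 - c) * (δ * X / 8) - c * X ≤ (((Ioc V R).filter (fun y => y ∉ D)).card : ℝ)) :
    ∃ x, 0 < x ∧ x ∉ D ∧ ∀ s ∈ F, x + s ∉ D := by
  by_contra hcon
  push Not at hcon
  have hsub : (Ioc V R).filter (fun y => y ∉ D) ⊆
      F.biUnion (fun s => (Ioc V R).filter (fun y => ¬ (y ∈ D ↔ y + s ∈ D))) := by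
    intro y hy
    rw [mem_filter, mem_Ioc] at hy
    obtain ⟨s, hs, hys⟩ := hcon y (by omega) hy.2
    rw [mem_biUnion]
    refine ⟨s, hs, ?_⟩
    rw [mem_filter, mem_Ioc]
    refine ⟨hy.1, ?_⟩
    have := hy.2
    tauto
  have h1 : (((Ioc V R).filter (fun y => y ∉ D)).card : ℝ) ≤ n₀ * (m * (8 * c * X)) := by
    have h2 := (card_le_card hsub).trans card_biUnion_le
    calc (((Ioc V R).filter (fun y => y ∉ D)).card : ℝ)
        ≤ ∑ s ∈ F, (((Ioc V R).filter (fun y => ¬ (y ∈ D ↔ y + s ∈ D))).card : ℝ) := by exact_mod_cast h2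
      _ ≤ ∑ _s ∈ F, (m * (8 * c * X) : ℝ) := sum_le_sum hper
      _ = F.card * (m * (8 * c * X)) := by rw [sum_const, nsmul_eq_mul]
      _ ≤ _ := by
        apply mul_le_mul_of_nonneg_right (by exact_mod_cast hF)
        positivity
  have hfac : (1 : ℝ) ≤ m := by exact_mod_cast hm
  have hn0 : (0 : ℝ) ≤ n₀ := Nat.cast_nonneg _
  have h2 : c * (800 * (m * (n₀ + 1))) ≤ δ := by
    refine le_trans (le_of_eq ?_) hcs
    ring
  have h3 : c ≤ 1 / 800 := by
    have : (1 : ℝ) ≤ m * (n₀ + 1) := by nlinarith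
    nlinarith
  have h4 : c * X + n₀ * (m * (8 * c * X)) ≤ δ * X / 100 := by
    have h5 : c + n₀ * (m * (8 * c)) ≤ 8 * (c * (m * (n₀ + 1))) := by nlinarith [mul_pos hc hc]
    have h6 : c + n₀ * (m * (8 * c)) ≤ δ / 100 := by nlinarith
    nlinarith
  have h6 : 0 < δ * X := mul_pos hδ hX
  nlinarith

theorem find {δ : ℝ} (hδ : 0 < δ) (hδ1 : δ ≤ 1) {t n₀ : ℕ} (ht : 4 / δ ≤ t) {c : ℝ} (hc : 0 < c)
    (hcs : c * (800 * t.factorial * (n₀ + 1)) ≤ δ)
    {E D : Set ℕ} {L₀ : ℕ} (hE : Half c L₀ E) (hhalf : Half c L₀ D) (hbad : Bad δ c E D) (F : Finset ℕ)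
    (hF : F.card ≤ n₀) (hFm : ∀ s ∈ F, t.factorial ∣ s) :
    ∃ x, 0 < x ∧ x ∉ D ∧ ∀ s ∈ F, x + s ∉ D := by
  obtain ⟨Sm, hSm⟩ : ∃ Sm : ℕ, ∀ s ∈ F, s ≤ Sm := ⟨F.sup id, fun s hs => le_sup (f := id) hs⟩
  obtain ⟨T₁, hT₁⟩ := exists_nat_ge (8 * (Sm + 4 + L₀) / δ)
  obtain ⟨T, hT, u, hbadT⟩ := hbad (T₁ + t * Sm + 1)
  have hTr : 8 * (Sm + 4 + L₀) / δ ≤ (T : ℝ) := hT₁.trans (by exact_mod_cast (by omega : T₁ ≤ T))
  have hT0 : (0 : ℝ) < T := by
    have : 1 ≤ T := by omega
    exact_mod_cast this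
  have htS : t * Sm ≤ T := by omega
  obtain ⟨X, hX⟩ : ∃ X : ℝ, X = (u : ℝ) + T := ⟨_, rfl⟩
  have hu0 : (0 : ℝ) ≤ u := Nat.cast_nonneg _
  have hTX : (T : ℝ) ≤ X := by linarith
  have hX0 : 0 < X := by linarith
  have hXbig : 8 * ((Sm : ℝ) + 4 + L₀) ≤ δ * X := by
    rw [div_le_iff₀ hδ] at hTr
    nlinarith
  -- the large bad numbers
  obtain ⟨H, hH⟩ : ∃ H : Finset ℕ, H = (Ioc u (u + T)).filter
      (fun h => (rep E D h : ℝ) < c * h ∧ δ * X / 4 ≤ (h : ℝ)) := ⟨_, rfl⟩
  have hHmem : ∀ h, h ∈ H ↔ (u < h ∧ h ≤ u + T) ∧ (rep E D h : ℝ) < c * h ∧ δ * X / 4 ≤ (h : ℝ) := by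
    intro h
    rw [hH, mem_filter, mem_Ioc]
  have hHX : ∀ h ∈ H, (h : ℝ) ≤ X := by
    intro h hh
    rw [hX]
    exact_mod_cast ((hHmem h).1 hh).1.2
  have hHcard : δ * T / 2 ≤ (H.card : ℝ) := by
    by_cases hcase : T ≤ u
    · have h1 : (Ioc u (u + T)).filter (fun h => (rep E D h : ℝ) < c * h) ⊆ H := by
        intro h hh
        rw [mem_filter, mem_Ioc] at hh
        rw [hHmem]
        refine ⟨hh.1, hh.2, ?_⟩
        have h2 : (u : ℝ) ≤ h := by exact_mod_cast hh.1.1.le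
        have h3 : (T : ℝ) ≤ u := by exact_mod_cast hcase
        nlinarith
      have h2 : (((Ioc u (u + T)).filter (fun h => (rep E D h : ℝ) < c * h)).card : ℝ) ≤ H.card := by
        exact_mod_cast card_le_card h1
      nlinarith [mul_pos hδ hT0]
    · push Not at hcase
      have h1 : (Ioc u (u + T)).filter (fun h => (rep E D h : ℝ) < c * h) ⊆ H ∪ Ioc 0 ⌊δ * X / 4⌋₊ := by
        intro h hh
        rw [mem_filter, mem_Ioc] at hh
        rw [mem_union, hHmem, mem_Ioc]
        by_cases h3 : δ * X / 4 ≤ (h : ℝ)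
        · left
          exact ⟨hh.1, hh.2, h3⟩
        · right
          push Not at h3
          exact ⟨by omega, Nat.le_floor h3.le⟩
      have h2 : (((Ioc u (u + T)).filter (fun h => (rep E D h : ℝ) < c * h)).card : ℝ) ≤
          H.card + (⌊δ * X / 4⌋₊ : ℝ) := by
        have h3 := (card_le_card h1).trans (card_union_le _ _)
        rw [Nat.card_Ioc, Nat.sub_zero] at h3
        exact_mod_cast h3
      have h4 : (⌊δ * X / 4⌋₊ : ℝ) ≤ δ * X / 4 := Nat.floor_le (by positivity)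
      have h5 : (u : ℝ) ≤ T := by exact_mod_cast hcase.le
      nlinarith [mul_pos hδ hT0]
  obtain ⟨R, hR⟩ : ∃ R : ℕ, R = ⌊δ * X / 4⌋₊ - 1 := ⟨_, rfl⟩
  have hfl : 2 * Sm + 2 * L₀ + 8 ≤ ⌊δ * X / 4⌋₊ := by
    apply Nat.le_floor
    push_cast
    linarith
  have hRh : ∀ h ∈ H, R < h := by
    intro h hh
    have h1 : ⌊δ * X / 4⌋₊ ≤ h := Nat.floor_le_of_le ((hHmem h).1 hh).2.2
    omega
  have hRR : δ * X / 8 ≤ ((R - Sm : ℕ) : ℝ) := by
    have h1 : δ * X / 4 < (⌊δ * X / 4⌋₊ : ℝ) + 1 := Nat.lt_floor_add_one _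
    have h2 : ((R - Sm : ℕ) : ℝ) = (⌊δ * X / 4⌋₊ : ℝ) - 1 - Sm := by
      rw [Nat.cast_sub (by omega), hR, Nat.cast_sub (by omega)]
      push_cast
      ring
    rw [h2]
    have h3 : (0 : ℝ) ≤ Sm := Nat.cast_nonneg _
    have h4 : (0 : ℝ) ≤ L₀ := Nat.cast_nonneg _
    linarith
  obtain ⟨R', hR'⟩ : ∃ R' : ℕ, R' = R - Sm := ⟨_, rfl⟩
  rw [← hR'] at hRR
  have hagree : ∀ h ∈ H, (((Ioo 0 h).filter (fun x => (x ∈ E ↔ h - x ∈ D))).card : ℝ) ≤ 4 * c * X := by
    intro h hh
    have h1 := (hHmem h).1 hh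
    have h2 := agree hc.le hE hhalf (h := h) (by have := hRh h hh; omega) h1.2.1.le
    have h3 := hHX h hh
    nlinarith
  -- almost periods
  have hper : ∀ s ∈ F, (((Ioc 0 R').filter (fun y => ¬ (y ∈ D ↔ y + s ∈ D))).card : ℝ) ≤ t.factorial * (8 * c * X) := by
    intro s hs
    rcases Nat.eq_zero_or_pos s with h0 | h0
    · subst h0
      have : (Ioc 0 R').filter (fun y => ¬ (y ∈ D ↔ y + 0 ∈ D)) = ∅ := by
        apply filter_eq_empty_iff.2
        intro y _ hy
        exact hy (by rw [add_zero])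
      rw [this, card_empty, Nat.cast_zero]
      positivity
    · obtain ⟨s', hs'⟩ := hFm s hs
      have hs'1 : 1 ≤ s' := by
        rcases Nat.eq_zero_or_pos s' with h1 | h1
        · rw [h1, mul_zero] at hs'; omega
        · exact h1
      have hs's : s' ≤ Sm := by
        refine le_trans ?_ (hSm s hs)
        rw [hs']
        exact Nat.le_mul_of_pos_left _ (Nat.factorial_pos t)
      obtain ⟨r, hr1, hrt, h, hh, hh'⟩ := pigeon (H := H) (u := u) (T := T) (t := t)
        (fun h hh => ((hHmem h).1 hh).1) (by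
          have h1 : t * s' ≤ T := (Nat.mul_le_mul_left t hs's).trans htS
          have h2 : ((T + t * s' : ℕ) : ℝ) < (((t + 1) * H.card : ℕ) : ℝ) := by
            have h3 : ((t * s' : ℕ) : ℝ) ≤ T := by exact_mod_cast h1
            have h4 : 4 ≤ t * δ := by rwa [div_le_iff₀ hδ] at ht
            push_cast at h3 ⊢
            have h5 : ((t : ℝ) + 1) * (δ * T / 2) ≤ ((t : ℝ) + 1) * H.card := by
              apply mul_le_mul_of_nonneg_left hHcard
              positivity
            nlinarith [mul_pos hδ hT0]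
          exact_mod_cast h2)
      have h1 := shiftinv E D h (r * s')
      have h2 : (((Ioo 0 h).filter (fun y => ¬ (y ∈ D ↔ y + r * s' ∈ D))).card : ℝ) ≤ 8 * c * X := by
        have h3 : (((Ioo 0 h).filter (fun y => ¬ (y ∈ D ↔ y + r * s' ∈ D))).card : ℝ) ≤
            (((Ioo 0 h).filter (fun x => (x ∈ E ↔ h - x ∈ D))).card : ℝ) +
            (((Ioo 0 (h + r * s')).filter (fun x => (x ∈ E ↔ (h + r * s') - x ∈ D))).card : ℝ) := by
          exact_mod_cast h1
        linarith [hagree h hh, hagree _ hh']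
      have h3 : (((Ioc 0 R).filter (fun y => ¬ (y ∈ D ↔ y + r * s' ∈ D))).card : ℝ) ≤ 8 * c * X := by
        refine le_trans ?_ h2
        rw [Nat.cast_le]
        apply card_le_card
        intro y hy
        rw [mem_filter, mem_Ioc] at hy
        rw [mem_filter, mem_Ioo]
        have := hRh h hh
        exact ⟨⟨hy.1.1, by omega⟩, hy.2⟩
      obtain ⟨w, hw⟩ : r ∣ t.factorial := Nat.dvd_factorial (by omega) hrt
      have hws : w * (r * s') = s := by rw [hs', hw]; ring
      have h4 := iter D (r * s') 0 R w R' (by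
        rw [hws]
        have := hSm s hs
        omega)
      rw [hws] at h4
      have hwm : (w : ℝ) ≤ t.factorial := by
        have : w ≤ t.factorial := by rw [hw]; exact Nat.le_mul_of_pos_left _ (by omega)
        exact_mod_cast this
      calc (((Ioc 0 R').filter (fun y => ¬ (y ∈ D ↔ y + s ∈ D))).card : ℝ)
          ≤ w * (((Ioc 0 R).filter (fun y => ¬ (y ∈ D ↔ y + r * s' ∈ D))).card : ℝ) := by exact_mod_cast h4
        _ ≤ t.factorial * (8 * c * X) := by
          apply mul_le_mul hwm h3 (Nat.cast_nonneg _) (Nat.cast_nonneg _)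
  -- the complement of `D` is large
  obtain ⟨h, hh⟩ : H.Nonempty := by
    rw [← card_pos]
    have : (0 : ℝ) < H.card := lt_of_lt_of_le (by positivity) hHcard
    exact_mod_cast this
  have hcomp : (1 / 2 - c) * R' - c * X ≤ (((Ioc 0 R').filter (fun y => y ∉ D)).card : ℝ) := by
    have h1 := hE R' (by omega) (h - R' - 1)
    have hRh' := hRh h hh
    have h2 : cnt E (h - R' - 1) R' = ((Ioc 0 R').filter (fun y => h - y ∈ E)).card := by
      unfold cnt
      symm
      apply card_bij (fun y _ => h - y)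
      · intro y hy
        rw [mem_filter, mem_Ioc] at hy ⊢
        exact ⟨⟨by omega, by omega⟩, hy.2⟩
      · intro x hx y hy hxy
        rw [mem_filter, mem_Ioc] at hx hy
        omega
      · intro z hz
        rw [mem_filter, mem_Ioc] at hz
        refine ⟨h - z, ?_, by omega⟩
        rw [mem_filter, mem_Ioc]
        have : h - (h - z) = z := by omega
        rw [this]
        exact ⟨⟨by omega, by omega⟩, hz.2⟩
    have h3 : ((Ioc 0 R').filter (fun y => h - y ∈ E)).card ≤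
        ((Ioc 0 R').filter (fun y => y ∉ D)).card + rep E D h := by
      unfold rep
      have h4 : ((Ioc 0 R').filter (fun y => h - y ∈ E ∧ y ∈ D)).card ≤
          ((Ioo 0 h).filter (fun x => x ∈ E ∧ h - x ∈ D)).card := by
        apply card_le_card_of_injOn (fun y => h - y)
        · intro y hy
          rw [mem_coe, mem_filter, mem_Ioc] at hy
          rw [mem_coe, mem_filter, mem_Ioo]
          beta_reduce
          have e : h - (h - y) = y := by omega
          rw [e]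
          exact ⟨⟨by omega, by omega⟩, hy.2⟩
        · intro x hx y hy hxy
          rw [mem_coe, mem_filter, mem_Ioc] at hx hy
          have : h - x = h - y := hxy
          omega
      have h5 : (Ioc 0 R').filter (fun y => h - y ∈ E) ⊆ ((Ioc 0 R').filter (fun y => y ∉ D)) ∪
          ((Ioc 0 R').filter (fun y => h - y ∈ E ∧ y ∈ D)) := by
        intro y hy
        rw [mem_filter, mem_Ioc] at hy
        rw [mem_union, mem_filter, mem_filter, mem_Ioc]
        by_cases hyD : y ∈ D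
        · right
          exact ⟨hy.1, hy.2, hyD⟩
        · left
          exact ⟨hy.1, hyD⟩
      exact ((card_le_card h5).trans (card_union_le _ _)).trans (Nat.add_le_add_left h4 _)
    have h5 : (((Ioc 0 R').filter (fun y => h - y ∈ E)).card : ℝ) ≤
        (((Ioc 0 R').filter (fun y => y ∉ D)).card : ℝ) + (rep E D h : ℝ) := by exact_mod_cast h3
    rw [h2] at h1
    have h6 := ((hHmem h).1 hh).2.1
    have h7 := hHX h hh
    nlinarith
  have hm1 : 1 ≤ t.factorial := Nat.factorial_pos t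
  refine union_bound hm1 hc hX0 hδ hδ1 hcs hF hper (le_trans ?_ hcomp)
  have h3 : c ≤ 1 / 800 := by
    have h1 : (1 : ℝ) ≤ t.factorial := by exact_mod_cast hm1
    have h2 : (0 : ℝ) ≤ n₀ := Nat.cast_nonneg _
    have h4 : (1 : ℝ) ≤ t.factorial * (n₀ + 1) := by nlinarith
    nlinarith
  have h5 : (1 / 2 - c) * (δ * X / 8) ≤ (1 / 2 - c) * R' := by
    apply mul_le_mul_of_nonneg_left hRR
    linarith
  linarith

end Pool.Agent.HP27.TG
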