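import Mathlib
import Pool.Agent.HP27.TG.Find

set_option autoImplicit false

/-!
# Differences of elements of two sets of density one half: patterns in the complement
-/

namespace Pool.Agent.HP27.TG

open Finset Classical

theorem findd {δ : ℝ} (hδ : 0 < δ) (hδ1 : δ ≤ 1) {t n₀ : ℕ} (ht : 4 / δ ≤ t) {c : ℝ} (hc : 0 < c)
    (hcs : c * (800 * t.factorial * (n₀ + 1)) ≤ δ)
    {E D : Set ℕ} {L₀ : ℕ} (hE : Half c L₀ E) (hhalf : Half c L₀ D) (hbad : Badd δ c E D) (F : Finset ℕ)
    (hF : F.card ≤ n₀) (hFm : ∀ s ∈ F, t.factorial ∣ s) :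
    ∃ x, 0 < x ∧ x ∉ D ∧ ∀ s ∈ F, x + s ∉ D := by
  obtain ⟨Sm, hSm⟩ : ∃ Sm : ℕ, ∀ s ∈ F, s ≤ Sm := ⟨F.sup id, fun s hs => le_sup (f := id) hs⟩
  obtain ⟨T, hT, u, X, hXV, hbadT⟩ := hbad (8 * (Sm + 4 + L₀) + t * Sm + 1)
  obtain ⟨V, hV⟩ : ∃ V, V = u + T := ⟨_, rfl⟩
  have hT0 : (0 : ℝ) < T := by
    have : 1 ≤ T := by omega
    exact_mod_cast this
  have htS : t * Sm ≤ T := by omega
  have hX0 : (0 : ℝ) < X := by
    have : 1 ≤ X := by omega
    exact_mod_cast this
  -- the bad numbers
  obtain ⟨H, hH⟩ : ∃ H : Finset ℕ, H = (Ioc u (u + T)).filter (fun h => (repd E D X h : ℝ) < c * X) := ⟨_, rfl⟩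
  have hHmem : ∀ h, h ∈ H ↔ (u < h ∧ h ≤ u + T) ∧ (repd E D X h : ℝ) < c * X := by
    intro h
    rw [hH, mem_filter, mem_Ioc]
  have hHcard : δ * T < (H.card : ℝ) := by rw [hH]; exact hbadT
  have hagree : ∀ h ∈ H, (((Ioc 0 X).filter (fun x => (x ∈ E ↔ x + h ∈ D))).card : ℝ) ≤ 4 * c * X := by
    intro h hh
    have h1 := (hHmem h).1 hh
    have h2 := agreed hE hhalf (X := X) (h := h) (by omega) h1.2.le
    nlinarith
  obtain ⟨R', hR'⟩ : ∃ R' : ℕ, R' = X - Sm := ⟨_, rfl⟩
  -- almost periods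
  have hper : ∀ s ∈ F, (((Ioc V R').filter (fun y => ¬ (y ∈ D ↔ y + s ∈ D))).card : ℝ) ≤ t.factorial * (8 * c * X) := by
    intro s hs
    rcases Nat.eq_zero_or_pos s with h0 | h0
    · subst h0
      have : (Ioc V R').filter (fun y => ¬ (y ∈ D ↔ y + 0 ∈ D)) = ∅ := by
        apply filter_eq_empty_iff.2
        intro y _ hy
        exact hy (by rw [add_zero])
      rw [this, card_empty, Nat.cast_zero]
      positivity
    · obtain ⟨s', hs'⟩ := hFm s hs
      have hs's : s' ≤ Sm := by
        refine le_trans ?_ (hSm s hs)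
        rw [hs']
        exact Nat.le_mul_of_pos_left _ (Nat.factorial_pos t)
      obtain ⟨r, hr1, hrt, h, hh, hh'⟩ := pigeon (H := H) (u := u) (T := T) (t := t)
        (s := s') (fun h hh => ((hHmem h).1 hh).1) (by
          have h1 : t * s' ≤ T := (Nat.mul_le_mul_left t hs's).trans htS
          have h2 : ((T + t * s' : ℕ) : ℝ) < (((t + 1) * H.card : ℕ) : ℝ) := by
            have h3 : ((t * s' : ℕ) : ℝ) ≤ T := by exact_mod_cast h1
            have h4 : 4 ≤ t * δ := by rwa [div_le_iff₀ hδ] at ht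
            push_cast at h3 ⊢
            have h5 : ((t : ℝ) + 1) * (δ * T) ≤ ((t : ℝ) + 1) * H.card := by
              apply mul_le_mul_of_nonneg_left hHcard.le
              positivity
            nlinarith [mul_pos hδ hT0]
          exact_mod_cast h2)
      have h1 := shiftinvd E D X V h (r * s') (by rw [hV]; exact ((hHmem h).1 hh).1.2)
      have h2 : (((Ioc V X).filter (fun y => ¬ (y ∈ D ↔ y + r * s' ∈ D))).card : ℝ) ≤ 8 * c * X := by
        have h3 : (((Ioc V X).filter (fun y => ¬ (y ∈ D ↔ y + r * s' ∈ D))).card : ℝ) ≤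
            (((Ioc 0 X).filter (fun x => (x ∈ E ↔ x + h ∈ D))).card : ℝ) +
            (((Ioc 0 X).filter (fun x => (x ∈ E ↔ x + (h + r * s') ∈ D))).card : ℝ) := by
          exact_mod_cast h1
        linarith [hagree h hh, hagree _ hh']
      obtain ⟨w, hw⟩ : r ∣ t.factorial := Nat.dvd_factorial (by omega) hrt
      have hws : w * (r * s') = s := by rw [hs', hw]; ring
      have h4 := iter D (r * s') V X w R' (by
        rw [hws]
        have := hSm s hs
        omega)
      rw [hws] at h4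
      have hwm : (w : ℝ) ≤ t.factorial := by
        have : w ≤ t.factorial := by rw [hw]; exact Nat.le_mul_of_pos_left _ (by omega)
        exact_mod_cast this
      calc (((Ioc V R').filter (fun y => ¬ (y ∈ D ↔ y + s ∈ D))).card : ℝ)
          ≤ w * (((Ioc V X).filter (fun y => ¬ (y ∈ D ↔ y + r * s' ∈ D))).card : ℝ) := by exact_mod_cast h4
        _ ≤ t.factorial * (8 * c * X) := by
          apply mul_le_mul hwm h2 (Nat.cast_nonneg _) (Nat.cast_nonneg _)
  -- the complement of `D` is large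
  obtain ⟨h, hh⟩ : H.Nonempty := by
    rw [← card_pos]
    have : (0 : ℝ) < H.card := lt_trans (by positivity) hHcard
    exact_mod_cast this
  have hhV : h ≤ V := by rw [hV]; exact ((hHmem h).1 hh).1.2
  have hcomp : (1 / 2 - c) * ((R' - V : ℕ) : ℝ) - c * X ≤ (((Ioc V R').filter (fun y => y ∉ D)).card : ℝ) := by
    have h1 := hE (R' - V) (by omega) (V - h)
    have h2 : cnt E (V - h) (R' - V) = ((Ioc V R').filter (fun y => y - h ∈ E)).card := by
      unfold cnt
      apply card_bij (fun x _ => x + h)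
      · intro x hx
        rw [mem_filter, mem_Ioc] at hx ⊢
        have : x + h - h = x := by omega
        rw [this]
        exact ⟨⟨by omega, by omega⟩, hx.2⟩
      · intro x _ y _ hxy
        omega
      · intro z hz
        rw [mem_filter, mem_Ioc] at hz
        refine ⟨z - h, ?_, by omega⟩
        rw [mem_filter, mem_Ioc]
        exact ⟨⟨by omega, by omega⟩, hz.2⟩
    have h3 : ((Ioc V R').filter (fun y => y - h ∈ E)).card ≤
        ((Ioc V R').filter (fun y => y ∉ D)).card + repd E D X h := by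
      unfold repd
      have h4 : ((Ioc V R').filter (fun y => y - h ∈ E ∧ y ∈ D)).card ≤
          ((Ioc 0 X).filter (fun x => x ∈ E ∧ x + h ∈ D)).card := by
        apply card_le_card_of_injOn (fun y => y - h)
        · intro y hy
          rw [mem_coe, mem_filter, mem_Ioc] at hy
          rw [mem_coe, mem_filter, mem_Ioc]
          beta_reduce
          have e : y - h + h = y := by omega
          rw [e]
          exact ⟨⟨by omega, by omega⟩, hy.2⟩
        · intro x hx y hy hxy
          rw [mem_coe, mem_filter, mem_Ioc] at hx hy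
          have : x - h = y - h := hxy
          omega
      have h5 : (Ioc V R').filter (fun y => y - h ∈ E) ⊆ ((Ioc V R').filter (fun y => y ∉ D)) ∪
          ((Ioc V R').filter (fun y => y - h ∈ E ∧ y ∈ D)) := by
        intro y hy
        rw [mem_filter, mem_Ioc] at hy
        rw [mem_union, mem_filter, mem_filter, mem_Ioc]
        by_cases hyD : y ∈ D
        · right
          exact ⟨hy.1, hy.2, hyD⟩
        · left
          exact ⟨hy.1, hyD⟩
      exact ((card_le_card h5).trans (card_union_le _ _)).trans (Nat.add_le_add_left h4 _)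
    have h5 : (((Ioc V R').filter (fun y => y - h ∈ E)).card : ℝ) ≤
        (((Ioc V R').filter (fun y => y ∉ D)).card : ℝ) + (repd E D X h : ℝ) := by exact_mod_cast h3
    rw [h2] at h1
    have h6 := ((hHmem h).1 hh).2
    linarith
  have hm1 : 1 ≤ t.factorial := Nat.factorial_pos t
  refine union_bound hm1 hc hX0 hδ hδ1 hcs hF hper (le_trans ?_ hcomp)
  have h3 : c ≤ 1 / 800 := by
    have h1 : (1 : ℝ) ≤ t.factorial := by exact_mod_cast hm1
    have h2 : (0 : ℝ) ≤ n₀ := Nat.cast_nonneg _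
    have h4 : (1 : ℝ) ≤ t.factorial * (n₀ + 1) := by nlinarith
    nlinarith
  have h4 : δ * X / 8 ≤ ((R' - V : ℕ) : ℝ) := by
    have h5 : X ≤ 8 * (R' - V) := by omega
    have h6 : (X : ℝ) ≤ 8 * ((R' - V : ℕ) : ℝ) := by exact_mod_cast h5
    nlinarith
  have h5 : (1 / 2 - c) * (δ * X / 8) ≤ (1 / 2 - c) * ((R' - V : ℕ) : ℝ) := by
    apply mul_le_mul_of_nonneg_left h4
    linarith
  linarith

end Pool.Agent.HP27.TG
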