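import Mathlib
import Pool.Agent.HP27.TG.Findd

set_option autoImplicit false

/-!
# Almost all multiples are sums and differences of two elements of a set which meets the differences of any four classes

Let `G` be a set of natural numbers which contains a difference between two of any four classes of `K` numbers which are
congruent modulo `L`, and suppose that the multiples of every sufficiently divisible number have density at least
`1/2 - ε` in `G`. Then, for every sufficiently divisible `N` and all `α, β ≥ 1`, almost all the multiples of `N α β` have many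
representations as `α g₁ + β g₂` and as `α g₁ - β g₂` with `g₁` and `g₂` in `G` (theorem `almost_all`).

Proof. If a positive proportion of the `h` have few representations then the set `D` of the `x` with `N α x ∈ G` is almost
invariant under all the multiples of some `m` (the sum set misses `h` only if `D` is nearly the complement of the reflection
of another set at `h / 2`, and by pigeonhole two of the bad `h` differ by a small multiple of any given number), so its
complement contains `x, x + s₁, ..., x + s_n` for all given multiples `s_i` of `m`. If this happens at two levels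
`N₁ | N₂` then four classes without differences in `G` are `N₁ i + N₂ j` with `i` and `j` in one of two sets.
-/

namespace Pool.Agent.HP27.TG

open Finset Classical

/-- there is an element of `G` between two of any four classes of `K` numbers congruent modulo `L` -/
def FourAll (K L : ℕ) (G : Set ℕ) : Prop := ∀ A : Fin 4 → Fin K → ℕ,
  Function.Injective (fun x : Fin 4 × Fin K => A x.1 x.2) → (∀ g k g' k', A g k ≡ A g' k' [MOD L]) →
  ∃ g g' k k', g ≠ g' ∧ A g k < A g' k' ∧ A g' k' - A g k ∈ G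

/-- the numbers `x` with `N x` in `G` -/
def dil (N : ℕ) (G : Set ℕ) : Set ℕ := {x | N * x ∈ G}

/-- two levels at which the complement is rich give four classes -/
theorem two_levels {K L : ℕ} (hK : 1 ≤ K) {G : Set ℕ} (h4 : FourAll K L G) {m : ℕ} (hm : 0 < m)
    {N₁ N₂ : ℕ} (hN₁ : 0 < N₁) (hN₂ : 0 < N₂) (hL : L ∣ N₁) (hd : N₁ * m ∣ N₂)
    (h1 : ∀ F : Finset ℕ, F.card ≤ 4 * K * K + 2 * K → (∀ s ∈ F, m ∣ s) →
      ∃ x, 0 < x ∧ x ∉ dil N₁ G ∧ ∀ s ∈ F, x + s ∉ dil N₁ G)
    (h2 : ∀ F : Finset ℕ, F.card ≤ 4 * K * K + 2 * K → (∀ s ∈ F, m ∣ s) →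
      ∃ x, 0 < x ∧ x ∉ dil N₂ G ∧ ∀ s ∈ F, x + s ∉ dil N₂ G) : False := by
  obtain ⟨j, hj⟩ := hd
  obtain ⟨x₂, hx₂0, -, hx₂⟩ := h2 ((range (2 * K)).image (fun i => i * m))
    (card_image_le.trans (by rw [card_range]; omega)) (by
      intro s hs
      rw [mem_image] at hs
      obtain ⟨i, -, rfl⟩ := hs
      exact dvd_mul_left m i)
  -- the numbers on the second level
  obtain ⟨y, hy⟩ : ∃ y : Bool → Fin K → ℕ,
      y = (fun (b : Bool) (i : Fin K) => (if b = true then x₂ + (K - 1) * m else 0) + (i : ℕ) * m) := ⟨_, rfl⟩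
  obtain ⟨W, hW⟩ : ∃ W, W = ∑ b, ∑ i, y b i := ⟨_, rfl⟩
  have hyW : ∀ b i, y b i ≤ W := by
    intro b i
    rw [hW]
    calc y b i ≤ ∑ i, y b i := single_le_sum (f := fun i => y b i) (fun _ _ => Nat.zero_le _) (mem_univ i)
      _ ≤ _ := single_le_sum (f := fun b => ∑ i, y b i) (fun _ _ => Nat.zero_le _) (mem_univ b)
  have hym : ∀ i i' : Fin K, y false i < y true i' ∧ y true i' - y false i ∉ dil N₂ G := by
    intro i i'
    have e1 : y false i = i * m := by rw [hy]; simp
    have e2 : y true i' = x₂ + (K - 1) * m + i' * m := by rw [hy]; simp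
    have h3 : (i : ℕ) * m ≤ (K - 1) * m := Nat.mul_le_mul_right m (by have := i.2; omega)
    refine ⟨by omega, ?_⟩
    have h4 : y true i' - y false i = x₂ + (K - 1 + i' - i) * m := by
      rw [e1, e2]
      have h5 : (K - 1 + i' - i) * m + i * m = (K - 1) * m + i' * m := by
        rw [← add_mul, ← add_mul]
        congr 1
        have := i.2
        omega
      omega
    rw [h4]
    apply hx₂
    rw [mem_image]
    refine ⟨K - 1 + i' - i, ?_, rfl⟩
    rw [mem_range]
    have := i'.2
    omega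
  -- the first level
  obtain ⟨x₁, hx₁0, -, hx₁⟩ := h1 ((univ : Finset ((Bool × Fin K) × (Bool × Fin K))).image
      (fun z => m * j * (W + y z.2.1 z.2.2 - y z.1.1 z.1.2))) (by
    refine card_image_le.trans ?_
    rw [card_univ, Fintype.card_prod, Fintype.card_prod, Fintype.card_bool, Fintype.card_fin]
    nlinarith) (by
      intro s hs
      rw [mem_image] at hs
      obtain ⟨z, -, rfl⟩ := hs
      rw [mul_assoc]
      exact dvd_mul_right m _)
  obtain ⟨x₀, hx₀⟩ : ∃ x₀, x₀ = x₁ + m * j * W := ⟨_, rfl⟩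
  have hcross : ∀ b b' i i', N₂ * y b i < N₁ * x₀ + N₂ * y b' i' ∧
      (N₁ * x₀ + N₂ * y b' i') - N₂ * y b i ∉ G := by
    intro b b' i i'
    have e1 : N₂ = N₁ * (m * j) := by rw [hj]; ring
    have h3 : y b i ≤ W := hyW b i
    have e2 : N₁ * x₀ + N₂ * y b' i' = N₁ * (x₁ + m * j * (W + y b' i' - y b i)) + N₂ * y b i := by
      rw [hx₀, e1]
      have h5 : m * j * (W + y b' i' - y b i) + m * j * y b i = m * j * W + m * j * y b' i' := by
        rw [← mul_add, ← mul_add]
        congr 1
        omega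
      calc N₁ * (x₁ + m * j * W) + N₁ * (m * j) * y b' i' = N₁ * x₁ + N₁ * (m * j * W + m * j * y b' i') := by ring
        _ = N₁ * x₁ + N₁ * (m * j * (W + y b' i' - y b i) + m * j * y b i) := by rw [h5]
        _ = _ := by ring
    have h6 : 0 < N₁ * (x₁ + m * j * (W + y b' i' - y b i)) := Nat.mul_pos hN₁ (by omega)
    refine ⟨by omega, ?_⟩
    rw [e2, Nat.add_sub_cancel]
    exact hx₁ _ (mem_image.2 ⟨((b, i), (b', i')), mem_univ _, rfl⟩)
  -- the four classes
  obtain ⟨e⟩ : Nonempty (Fin 4 ≃ Bool × Bool) := ⟨Fintype.equivOfCardEq (by simp)⟩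
  obtain ⟨A, hA⟩ : ∃ A : Fin 4 → Fin K → ℕ, A = (fun (g : Fin 4) (k : Fin K) =>
    (if (e g).1 = true then N₁ * x₀ else 0) + N₂ * y (e g).2 k) := ⟨_, rfl⟩
  have hyinj : ∀ b i i', y b i = y b i' → i = i' := by
    intro b i i' h
    rw [hy] at h
    have h3 : (i : ℕ) * m = i' * m := by
      simp only at h
      omega
    exact Fin.ext (Nat.eq_of_mul_eq_mul_right hm h3)
  have key : ∀ g g' k k', g ≠ g' → A g k < A g' k' → A g' k' - A g k ∉ G := by
    intro g g' k k' hne hlt
    have hne' : e g ≠ e g' := fun h => hne (e.injective h)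
    rw [hA] at hlt ⊢
    simp only at hlt ⊢
    rcases hg : e g with ⟨b, b₁⟩
    rcases hg' : e g' with ⟨b', b₁'⟩
    rw [hg, hg'] at hlt hne'
    rw [hg, hg'] at *
    simp only at hlt ⊢
    cases b <;> cases b'
    · cases b₁ <;> cases b₁'
      · exact absurd rfl hne'
      · have h3 := hym k k'
        have h4 : N₂ * y true k' - N₂ * y false k = N₂ * (y true k' - y false k) := (Nat.mul_sub _ _ _).symm
        simp only [Bool.false_eq_true, if_false, zero_add]
        rw [h4]
        exact h3.2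
      · have h3 := (hym k' k).1
        have h4 : N₂ * y false k' < N₂ * y true k := Nat.mul_lt_mul_of_pos_left h3 hN₂
        simp only [Bool.false_eq_true, if_false, zero_add] at hlt
        omega
      · exact absurd rfl hne'
    · simp only [Bool.false_eq_true, if_false, zero_add, if_true]
      exact (hcross b₁ b₁' k k').2
    · have h3 := (hcross b₁' b₁ k' k).1
      simp only [Bool.false_eq_true, if_false, zero_add, if_true] at hlt
      omega
    · cases b₁ <;> cases b₁'
      · exact absurd rfl hne'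
      · have h3 := hym k k'
        simp only [if_true]
        rw [Nat.add_sub_add_left, ← Nat.mul_sub]
        exact h3.2
      · have h3 := (hym k' k).1
        have h4 : N₂ * y false k' < N₂ * y true k := Nat.mul_lt_mul_of_pos_left h3 hN₂
        simp only [if_true] at hlt
        omega
      · exact absurd rfl hne'
  obtain ⟨g, g', k, k', hne, hlt, hG⟩ := h4 A (by
    rintro ⟨g, k⟩ ⟨g', k'⟩ h
    have h' : A g k = A g' k' := h
    rw [hA] at h'
    simp only at h'
    rcases hg : e g with ⟨b, b₁⟩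
    rcases hg' : e g' with ⟨b', b₁'⟩
    rw [hg, hg'] at h'
    simp only at h'
    have hbb : (b, b₁) = (b', b₁') := by
      cases b <;> cases b'
      · cases b₁ <;> cases b₁'
        · rfl
        · have h4 : N₂ * y false k < N₂ * y true k' := Nat.mul_lt_mul_of_pos_left (hym k k').1 hN₂
          simp only [Bool.false_eq_true, if_false, zero_add] at h'
          omega
        · have h4 : N₂ * y false k' < N₂ * y true k := Nat.mul_lt_mul_of_pos_left (hym k' k).1 hN₂
          simp only [Bool.false_eq_true, if_false, zero_add] at h'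
          omega
        · rfl
      · have h3 := (hcross b₁ b₁' k k').1
        simp only [Bool.false_eq_true, if_false, zero_add, if_true] at h'
        omega
      · have h3 := (hcross b₁' b₁ k' k).1
        simp only [Bool.false_eq_true, if_false, zero_add, if_true] at h'
        omega
      · cases b₁ <;> cases b₁'
        · rfl
        · have h4 : N₂ * y false k < N₂ * y true k' := Nat.mul_lt_mul_of_pos_left (hym k k').1 hN₂
          simp only [if_true] at h'
          omega
        · have h4 : N₂ * y false k' < N₂ * y true k := Nat.mul_lt_mul_of_pos_left (hym k' k).1 hN₂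
          simp only [if_true] at h'
          omega
        · rfl
    have hgg : g = g' := e.injective (by rw [hg, hg', hbb])
    obtain ⟨rfl, rfl⟩ := Prod.mk.inj hbb
    have h5 : N₂ * y b₁ k = N₂ * y b₁ k' := by omega
    rw [hgg, hyinj b₁ k k' (Nat.eq_of_mul_eq_mul_left hN₂ h5)]) (by
    have hz : ∀ g k, A g k ≡ 0 [MOD L] := by
      intro g k
      rw [Nat.modEq_zero_iff_dvd, hA]
      apply dvd_add
      · split_ifs
        · exact Dvd.dvd.mul_right hL _
        · exact dvd_zero _
      · refine Dvd.dvd.mul_right (hL.trans ?_) _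
        rw [hj, mul_assoc]
        exact dvd_mul_right _ _
    intro g k g' k'
    exact (hz g k).trans (hz g' k').symm)
  exact key g g' k k' hne hlt hG

/-- the complement of `D` contains all patterns of `n₀` multiples of `m` -/
def Rich (m n₀ : ℕ) (D : Set ℕ) : Prop := ∀ F : Finset ℕ, F.card ≤ n₀ → (∀ s ∈ F, m ∣ s) →
  ∃ x, 0 < x ∧ x ∉ D ∧ ∀ s ∈ F, x + s ∉ D

theorem almost_all {K : ℕ} (hK : 1 ≤ K) {δ : ℝ} (hδ : 0 < δ) : ∃ c : ℝ, 0 < c ∧ ∀ (L : ℕ) (G : Set ℕ), 0 < L →
    FourAll K L G → (∀ ε : ℝ, 0 < ε → ∃ M : ℕ, 0 < M ∧ ∀ N : ℕ, 0 < N → M ∣ N → ∃ L₀ : ℕ, Half ε L₀ (dil N G)) →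
    ∃ M : ℕ, 0 < M ∧ ∀ N : ℕ, 0 < N → M ∣ N → ∀ α β : ℕ, 0 < α → 0 < β → ∃ T₀ : ℕ, ∀ T : ℕ, T₀ ≤ T → ∀ u : ℕ,
      (((Ioc u (u + T)).filter (fun h => (rep (dil (N * β) G) (dil (N * α) G) h : ℝ) < c * h)).card : ℝ) ≤ δ * T ∧
      ∀ X : ℕ, 2 * (u + T) ≤ X →
      (((Ioc u (u + T)).filter (fun h => (repd (dil (N * α) G) (dil (N * β) G) X h : ℝ) < c * X)).card : ℝ) ≤
        δ * T := by
  by_cases hδ1 : δ ≤ 1
  swap
  · push Not at hδ1
    refine ⟨1, one_pos, fun L G _ _ _ => ⟨1, one_pos, fun N _ _ α β _ _ => ⟨0, fun T _ u => ?_⟩⟩⟩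
    have h0 : ∀ P : ℕ → Prop, (((Ioc u (u + T)).filter P).card : ℝ) ≤ δ * T := by
      intro P
      have h1 : ((Ioc u (u + T)).filter P).card ≤ T := by
        refine (card_filter_le _ _).trans ?_
        rw [Nat.card_Ioc]
        omega
      have h2 : (((Ioc u (u + T)).filter P).card : ℝ) ≤ T := by exact_mod_cast h1
      have h3 : (0 : ℝ) ≤ T := Nat.cast_nonneg _
      nlinarith
    exact ⟨h0 _, fun X _ => h0 _⟩
  obtain ⟨t, ht⟩ := exists_nat_ge (4 / δ)
  obtain ⟨c, hcdef⟩ : ∃ c : ℝ, c = δ / (800 * t.factorial * ((4 * K * K + 2 * K : ℕ) + 1)) := ⟨_, rfl⟩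
  have hden : (0 : ℝ) < 800 * t.factorial * ((4 * K * K + 2 * K : ℕ) + 1) := by
    have : (0 : ℝ) < t.factorial := by exact_mod_cast Nat.factorial_pos t
    positivity
  have hc : 0 < c := by rw [hcdef]; positivity
  have hcs : c * (800 * t.factorial * ((4 * K * K + 2 * K : ℕ) + 1)) ≤ δ := by
    rw [hcdef, div_mul_cancel₀ _ hden.ne']
  refine ⟨c, hc, fun L G hL h4 hhalf => ?_⟩
  by_contra hcon
  push Not at hcon
  obtain ⟨Mε, hMε, hhalfM⟩ := hhalf c hc
  -- levels
  have hlev : ∀ M : ℕ, 0 < M → Mε ∣ M → ∃ N : ℕ, 0 < N ∧ M ∣ N ∧ Rich t.factorial (4 * K * K + 2 * K) (dil N G) := by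
    intro M hM hMM
    obtain ⟨N, hN, hd, α, β, hα, hβ, hbad⟩ := hcon M hM
    obtain ⟨L₁, hL₁⟩ := hhalfM (N * α) (Nat.mul_pos hN hα) ((hMM.trans hd).trans (dvd_mul_right N α))
    obtain ⟨L₂, hL₂⟩ := hhalfM (N * β) (Nat.mul_pos hN hβ) ((hMM.trans hd).trans (dvd_mul_right N β))
    have hL₁' : Half c (max L₁ L₂) (dil (N * α) G) := fun T hT u => hL₁ T ((le_max_left _ _).trans hT) u
    have hL₂' : Half c (max L₁ L₂) (dil (N * β) G) := fun T hT u => hL₂ T ((le_max_right _ _).trans hT) u
    by_cases hb : Bad δ c (dil (N * β) G) (dil (N * α) G)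
    · exact ⟨N * α, Nat.mul_pos hN hα, hd.trans (dvd_mul_right N α), fun F hF hFm =>
        find hδ hδ1 ht hc hcs hL₂' hL₁' hb F hF hFm⟩
    · refine ⟨N * β, Nat.mul_pos hN hβ, hd.trans (dvd_mul_right N β), fun F hF hFm =>
        findd hδ hδ1 ht hc hcs hL₁' hL₂' ?_ F hF hFm⟩
      unfold Bad at hb
      push Not at hb
      obtain ⟨T₁, hT₁⟩ := hb
      intro T₂
      obtain ⟨T, hT, u, hu⟩ := hbad (T₁ + T₂)
      obtain ⟨X, hX1, hX2⟩ := hu (hT₁ T (by omega) u)
      exact ⟨T, by omega, u, X, hX1, hX2⟩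
  obtain ⟨N₁, hN₁, hd₁, hr₁⟩ := hlev (L * Mε) (Nat.mul_pos hL hMε) (dvd_mul_left Mε L)
  obtain ⟨N₂, hN₂, hd₂, hr₂⟩ := hlev (N₁ * t.factorial) (Nat.mul_pos hN₁ (Nat.factorial_pos t))
    (((dvd_mul_left Mε L).trans hd₁).trans (dvd_mul_right N₁ _))
  exact two_levels hK h4 (Nat.factorial_pos t) hN₁ hN₂ ((dvd_mul_right L Mε).trans hd₁) hd₂ hr₁ hr₂

end Pool.Agent.HP27.TG
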