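import Mathlib
import Pool.Agent.HP27.TG.Main
import Pool.Agent.W25.TF.Fin

set_option autoImplicit false

/-!
# Sets which meet the differences of any four classes: sums of two elements

The density theorem (starting files, `Pool.Agent.W25.TF`) and theorem `almost_all`.
-/

namespace Pool.Agent.HP27.TG

open Finset Filter Classical
open Pool.Agent.W142.TF (windows points not_Cpl Cpl)

/-- density one half in the multiples of every sufficiently divisible number -/
theorem half_of {K L : ℕ} (hL : 0 < L) {G : Set ℕ} (h4 : FourAll K L G) (ε : ℝ) (hε : 0 < ε) :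
    ∃ M : ℕ, 0 < M ∧ ∀ N : ℕ, 0 < N → M ∣ N → ∃ L₀ : ℕ, Half ε L₀ (dil N G) := by
  obtain ⟨M, hM, h⟩ := windows G L hL (1 / 2) ε (fun hall => by
    obtain ⟨Q, A, hQ, hinj, hcr⟩ := Pool.Agent.W25.TF.s_maiF4 {k : ℤ | ((L : ℕ) : ℤ) * k ∈ Cpl G} ε hε
      (fun M hM => by
        obtain ⟨Q, h1, h2, h3⟩ := hall M hM
        refine ⟨Q, h1, h2, fun L₀ => ?_⟩
        obtain ⟨L, hL, u, hu⟩ := h3 L₀
        refine ⟨L, hL, u, le_trans (le_of_eq ?_) hu⟩
        norm_num) K
    obtain ⟨H, C, hH⟩ := points 4 K L Q A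
    have hL0 : (L : ℤ) ≠ 0 := by exact_mod_cast hL.ne'
    have hcross : ∀ g g' : Fin 4, g < g' → ∀ i i', H g i ≠ H g' i' := by
      intro g g' hgg i i' he
      have h := hcr g g' hgg g'.2 i' i i'.2 i.2
      exact (not_Cpl C (hH g' i') (hH g i) h).1 he.symm
    obtain ⟨g, g', k, k', hne, hlt, hG⟩ := h4 H (by
      rintro ⟨g, i⟩ ⟨g', i'⟩ he
      have he' : H g i = H g' i' := he
      rcases lt_trichotomy g g' with hg | hg | hg
      · exact absurd he' (hcross g g' hg i i')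
      · subst hg
        have e : (L : ℤ) * (Q g * A g i + C) = L * (Q g * A g i' + C) := by rw [← hH, ← hH, he']
        have e1 := mul_left_cancel₀ hL0 e
        have e2 : (Q g : ℤ) * A g i = Q g * A g i' := by linarith
        have hQ0 : (Q g : ℤ) ≠ 0 := by have := hQ g; omega
        have e3 := mul_left_cancel₀ hQ0 e2
        have e4 := hinj g i.2 i'.2 e3
        rw [Fin.ext e4]
      · exact absurd he'.symm (hcross g' g hg i' i)) (by
      have hz : ∀ g i, H g i ≡ 0 [MOD L] := by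
        intro g i
        rw [Nat.modEq_zero_iff_dvd, ← Int.natCast_dvd_natCast, hH]
        exact dvd_mul_right _ _
      intro g k g' k'
      exact (hz g k).trans (hz g' k').symm)
    rcases lt_or_gt_of_ne hne with h | h
    · have := not_Cpl C (hH g' k') (hH g k) (hcr g g' h g'.2 k' k k'.2 k.2)
      exact this.2.2 hlt hG
    · have := not_Cpl C (hH g k) (hH g' k') (hcr g' g h g.2 k k' k.2 k'.2)
      exact this.2.1 hlt hG)
  refine ⟨M, hM, fun N hN hd => ?_⟩
  obtain ⟨L₀, hL₀⟩ := h N hN hd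
  refine ⟨L₀, fun T hT u => (hL₀ T hT u).trans (le_of_eq ?_)⟩
  unfold cnt
  rw [← Set.ncard_coe_finset]
  congr 2
  ext k
  rw [mem_coe, mem_filter, mem_Ioc]
  exact and_assoc.symm

/-- **sums and differences of two elements of a set which meets the differences of any four classes** -/
theorem sums {K : ℕ} (hK : 1 ≤ K) {δ : ℝ} (hδ : 0 < δ) : ∃ c : ℝ, 0 < c ∧ ∀ (L : ℕ) (G : Set ℕ), 0 < L →
    FourAll K L G → ∃ M : ℕ, 0 < M ∧ ∀ N : ℕ, 0 < N → M ∣ N → ∀ α β : ℕ, 0 < α → 0 < β →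
      ∃ T₀ : ℕ, ∀ T : ℕ, T₀ ≤ T → ∀ u : ℕ,
      (((Ioc u (u + T)).filter (fun h => (rep (dil (N * β) G) (dil (N * α) G) h : ℝ) < c * h)).card : ℝ) ≤ δ * T ∧
      ∀ X : ℕ, 2 * (u + T) ≤ X →
      (((Ioc u (u + T)).filter (fun h => (repd (dil (N * α) G) (dil (N * β) G) X h : ℝ) < c * X)).card : ℝ) ≤
        δ * T := by
  obtain ⟨c, hc, h⟩ := almost_all hK hδ
  exact ⟨c, hc, fun L G hL h4 => h L G hL h4 (fun ε hε => half_of hL h4 ε hε)⟩

end Pool.Agent.HP27.TG
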