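import Mathlib
import Pool.Agent.R493.CG.Four
/-!
# Among four classes of numbers there are two with an exact gap between consecutive primes: any order

The theorem `Pool.Agent.H40E9.SG.four` (helper40) for four classes in any order.
-/

set_option autoImplicit false

namespace Pool.Agent.HP27.TG

open Finset Filter
open Pool.Agent.R493.ST (tracec avoid)
open Pool.Agent.Y876.HS (log_shift)
open Pool.Agent.R493.CG (IsoGap isoN isoN_fin adjacent)

theorem four_any : ∃ K B : ℕ, 1 ≤ K ∧ ∀ P q a : ℕ, 0 < P → 6 ∣ P → 1 ≤ q → q ∣ P → a.Coprime q →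
    ∀ A : Fin 4 → Fin K → ℕ, Function.Injective (fun x : Fin 4 × Fin K => A x.1 x.2) →
    (∀ g k k', A g k ≡ A g k' [MOD (4 * K).factorial]) →
    ∀ᶠ x : ℝ in atTop, ∃ g g' k k', g ≠ g' ∧ A g k < A g' k' ∧
      x / Real.log x ^ B ≤ (isoN q a P (P * (A g' k' - A g k)) x : ℝ) := by
  classical
  obtain ⟨K, C, hK, htr⟩ := tracec 4
  refine ⟨K, C + 1, hK, ?_⟩
  intro P q a hP hP₀ hq hqP haq A hAinj hcol
  have k0 : Fin K := ⟨0, hK⟩
  set Y : ℕ := ∑ g, ∑ k, A g k with hY
  have hAY : ∀ g k, A g k ≤ Y := by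
    intro g k
    rw [hY]
    calc A g k ≤ ∑ k, A g k := single_le_sum (f := fun k => A g k) (fun _ _ => Nat.zero_le _) (mem_univ k)
      _ ≤ _ := single_le_sum (f := fun g => ∑ k, A g k) (fun _ _ => Nat.zero_le _) (mem_univ g)
  set N : ℕ := P * Y + 2 * P with hN
  have hidx : ∀ g k, P + P * A g k < N := by
    intro g k
    have h1 := Nat.mul_le_mul_left P (hAY g k)
    omega
  set idx : Fin 4 → Fin K → Fin N := fun g k => ⟨P + P * A g k, hidx g k⟩ with hidxdef
  have hidxinj : Function.Injective (fun y : Fin 4 × Fin K => idx y.1 y.2) := by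
    rintro ⟨g, k⟩ ⟨g', k'⟩ h
    have h1 : P + P * A g k = P + P * A g' k' := congrArg Fin.val h
    have h2 : A g k = A g' k' := Nat.eq_of_mul_eq_mul_left hP (by omega)
    exact hAinj h2
  have hloc : ∀ p : ℕ, p.Prime → ∃ n : ℕ, ∀ g k, ¬ (p : ℤ) ∣
      (q : ℤ) * n + ((a + (q - 1) * P + (idx g k : ℕ) : ℕ) : ℤ) := by
    intro p hp
    have hform : ∀ (n : ℕ) g k, q * n + (a + (q - 1) * P + (idx g k : ℕ)) =
        (q * n + a) + P * (q + A g k) := by
      intro n g k
      show q * n + (a + (q - 1) * P + (P + P * A g k)) = _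
      obtain ⟨q', rfl⟩ := Nat.exists_eq_add_of_le hq
      rw [Nat.add_sub_cancel_left]
      ring
    by_cases hpP : p ∣ P
    · by_cases hpq : p ∣ q
      · refine ⟨0, fun g k hd => ?_⟩
        have h1 : p ∣ q * 0 + (a + (q - 1) * P + (idx g k : ℕ)) := by exact_mod_cast hd
        rw [hform, mul_zero, zero_add] at h1
        have h2 := (Nat.dvd_add_left (hpP.mul_right _)).1 h1
        have h3 := Nat.dvd_gcd h2 hpq
        rw [haq] at h3
        exact hp.one_lt.ne' (Nat.dvd_one.1 h3)
      · obtain ⟨n, hn⟩ := avoid hp hpq {0} (fun _ => a) (by simpa using hp.one_lt)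
        refine ⟨n, fun g k hd => ?_⟩
        have h1 : p ∣ q * n + (a + (q - 1) * P + (idx g k : ℕ)) := by exact_mod_cast hd
        rw [hform] at h1
        exact hn 0 (mem_singleton_self _) ((Nat.dvd_add_left (hpP.mul_right _)).1 h1)
    · have hpq : ¬ p ∣ q := fun h => hpP (h.trans hqP)
      have hp5 : 5 ≤ p := by
        have h2 := hp.two_le
        by_contra hlt
        have h3 : p = 2 ∨ p = 3 := by
          have h4 : p ≠ 4 := by rintro rfl; exact absurd hp (by decide)
          omega
        rcases h3 with rfl | rfl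
        · exact hpP (dvd_trans (by norm_num) hP₀)
        · exact hpP (dvd_trans (by norm_num) hP₀)
      by_cases hpK : 4 * K < p
      · obtain ⟨n, hn⟩ := avoid hp hpq ((univ : Finset (Fin 4 × Fin K)).image
          (fun y => (idx y.1 y.2 : ℕ))) (fun i => a + (q - 1) * P + i) (by
            refine lt_of_le_of_lt card_image_le ?_
            rw [card_univ, Fintype.card_prod, Fintype.card_fin, Fintype.card_fin]
            exact hpK)
        refine ⟨n, fun g k hd => ?_⟩
        have h1 : p ∣ q * n + (a + (q - 1) * P + (idx g k : ℕ)) := by exact_mod_cast hd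
        exact hn _ (mem_image.2 ⟨(g, k), mem_univ _, rfl⟩) h1
      · have hpf : p ∣ (4 * K).factorial := (hp.dvd_factorial).2 (by omega)
        obtain ⟨n, hn⟩ := avoid hp hpq ((univ : Finset (Fin 4)).image
          (fun g => (idx g k0 : ℕ))) (fun i => a + (q - 1) * P + i) (by
            refine lt_of_le_of_lt card_image_le ?_
            rw [card_univ, Fintype.card_fin]
            omega)
        refine ⟨n, fun g k hd => ?_⟩
        have h1 : p ∣ q * n + (a + (q - 1) * P + (idx g k : ℕ)) := by exact_mod_cast hd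
        apply hn _ (mem_image.2 ⟨g, mem_univ _, rfl⟩)
        have h2 : A g k ≡ A g k0 [MOD p] := (hcol g k k0).of_dvd hpf
        have h3 : q * n + (a + (q - 1) * P + (P + P * A g k)) ≡
            q * n + (a + (q - 1) * P + (P + P * A g k0)) [MOD p] :=
          Nat.ModEq.add_left _ (Nat.ModEq.add_left _ (Nat.ModEq.add_left _ (h2.mul_left _)))
        exact (Nat.ModEq.dvd_iff h3 dvd_rfl).1 h1
  have hev := htr (ι := Fin N) (fun _ => (q : ℤ)) (fun i => ((a + (q - 1) * P + (i : ℕ) : ℕ) : ℤ))
    (fun _ => by exact_mod_cast hq) (by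
      intro i j hij h
      have hq0 : (q : ℤ) ≠ 0 := by exact_mod_cast (by omega : q ≠ 0)
      have h1 := mul_left_cancel₀ hq0 h
      apply hij
      apply Fin.ext
      have h2 : a + (q - 1) * P + (j : ℕ) = a + (q - 1) * P + (i : ℕ) := by exact_mod_cast h1
      omega) 4 le_rfl idx hidxinj (by exact_mod_cast hloc)
  set ν : ℕ := a + q * P + P * Y with hν
  have hq1 : (1 : ℝ) ≤ q := by exact_mod_cast hq
  have ht : Tendsto (fun x : ℝ => (x - ν) / q) atTop atTop :=
    (tendsto_atTop_add_const_right _ _ tendsto_id).atTop_div_const (by positivity)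
  filter_upwards [ht.eventually hev, log_shift ν q (Nat.cast_nonneg _) hq1 C] with x hx hxs
  obtain ⟨S, c, T, hS, hST, hTA, hcnt⟩ := hx
  have hS2 : 1 < S.card := by omega
  obtain ⟨g₁, hg₁, g₂, hg₂, hne⟩ := Finset.one_lt_card.1 hS2
  wlog hlt : A g₁ (c g₁) < A g₂ (c g₂) generalizing g₁ g₂
  · refine this g₂ hg₂ g₁ hg₁ hne.symm (lt_of_le_of_ne (not_lt.1 hlt) fun h => hne ?_)
    have h1 : (fun x : Fin 4 × Fin K => A x.1 x.2) (g₂, c g₂) = (fun x : Fin 4 × Fin K => A x.1 x.2) (g₁, c g₁) := h
    exact (congrArg Prod.fst (hAinj h1)).symm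
  set T' : Finset ℕ := T.image (fun i : Fin N => (i : ℕ)) with hT'
  have hT'A : ∀ w ∈ T', ∃ g k, w = P + P * A g k := by
    intro w hw
    obtain ⟨i, hi, rfl⟩ := mem_image.1 hw
    obtain ⟨g, k, rfl⟩ := hTA i hi
    exact ⟨g, k, rfl⟩
  have hvalinj : ∀ g k g' k', P + P * A g k = P + P * A g' k' → g = g' := by
    intro g k g' k' h
    have h1 := @hidxinj (g, k) (g', k') (Fin.ext h)
    exact congrArg Prod.fst h1
  obtain ⟨u, hu, v, hv, huv, hfuv, hadj⟩ := adjacent T'
    (fun w => (univ : Finset (Fin 4)).filter (fun g => ∃ k, w = P + P * A g k))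
    (u := P + P * A g₁ (c g₁)) (v := P + P * A g₂ (c g₂))
    (mem_image.2 ⟨_, hST g₁ hg₁, rfl⟩) (mem_image.2 ⟨_, hST g₂ hg₂, rfl⟩)
    (by
      have h2 := Nat.mul_lt_mul_of_pos_left hlt hP
      omega)
    (by
      intro h
      have h1 : g₁ ∈ (univ : Finset (Fin 4)).filter (fun g => ∃ k, P + P * A g₁ (c g₁) = P + P * A g k) :=
        mem_filter.2 ⟨mem_univ _, c g₁, rfl⟩
      rw [h] at h1
      obtain ⟨k, hk⟩ := (mem_filter.1 h1).2
      exact hne (hvalinj _ _ _ _ hk).symm)
  obtain ⟨g, k, rfl⟩ := hT'A u hu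
  obtain ⟨g', k', rfl⟩ := hT'A v hv
  have hAA : A g k < A g' k' := by
    have h1 : P * A g k < P * A g' k' := by omega
    exact lt_of_mul_lt_mul_left h1 (Nat.zero_le _)
  have hgg : g ≠ g' := by
    intro h3
    apply hfuv
    subst h3
    ext y
    simp only [mem_filter, mem_univ, true_and]
    constructor
    · rintro ⟨k₁, h1⟩
      have := hvalinj _ _ _ _ h1
      subst this
      exact ⟨k', rfl⟩
    · rintro ⟨k₁, h1⟩
      have := hvalinj _ _ _ _ h1
      subst this
      exact ⟨k, rfl⟩
  refine ⟨g, g', k, k', hgg, hAA, hxs.trans (hcnt.trans (Nat.cast_le.2 ?_))⟩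
  unfold isoN
  have hform : ∀ (n i : ℕ), ((q : ℤ) * (n : ℤ) + ((a + (q - 1) * P + i : ℕ) : ℤ)).natAbs =
      q * n + (a + (q - 1) * P + i) := by
    intro n i
    have : (q : ℤ) * (n : ℤ) + ((a + (q - 1) * P + i : ℕ) : ℤ) =
      ((q * n + (a + (q - 1) * P + i) : ℕ) : ℤ) := by push_cast; ring
    rw [this, Int.natAbs_natCast]
  have hqP' : ∀ y, a + (q - 1) * P + (P + P * y) = a + q * P + P * y := by
    intro y
    obtain ⟨q', rfl⟩ := Nat.exists_eq_add_of_le hq
    rw [Nat.add_sub_cancel_left]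
    ring
  refine Set.ncard_le_ncard_of_injOn (fun n => q * n + (a + (q - 1) * P + (P + P * A g k))) ?_ ?_
    (isoN_fin _ _ _ _ _)
  · rintro n ⟨hn1, hn2⟩
    have hprime : ∀ i : ℕ, i < N → ((q * n + (a + (q - 1) * P + i)).Prime ↔ i ∈ T') := by
      intro i hi
      have h1 := hn2 ⟨i, hi⟩
      simp only at h1
      rw [hform] at h1
      rw [h1]
      constructor
      · intro h2
        exact mem_image.2 ⟨_, h2, rfl⟩
      · intro h2
        obtain ⟨j, hj, hji⟩ := mem_image.1 h2
        have : j = ⟨i, hi⟩ := Fin.ext hji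
        rwa [← this]
    have hd : P + P * A g k + P * (A g' k' - A g k) = P + P * A g' k' := by
      rw [Nat.mul_sub]
      have : P * A g k < P * A g' k' := Nat.mul_lt_mul_of_pos_left hAA hP
      omega
    have hpd : q * n + (a + (q - 1) * P + (P + P * A g k)) + P * (A g' k' - A g k) =
        q * n + (a + (q - 1) * P + (P + P * A g' k')) := by
      omega
    refine ⟨?_, (hprime _ (hidx g k)).2 hu, ?_, ?_, ?_⟩
    · show ((q * n + (a + (q - 1) * P + (P + P * A g k)) : ℕ) : ℝ) ≤ x
      rw [hqP']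
      have h1 : (n : ℝ) ≤ (x - ν) / q := hn1
      rw [le_div_iff₀ (by linarith)] at h1
      have h2 : a + q * P + P * A g k ≤ ν := by
        have := Nat.mul_le_mul_left P (hAY g k)
        omega
      have h3 : ((a + q * P + P * A g k : ℕ) : ℝ) ≤ (ν : ℝ) := by exact_mod_cast h2
      push_cast at h3 ⊢
      nlinarith
    · show (q * n + (a + (q - 1) * P + (P + P * A g k)) + P * (A g' k' - A g k)).Prime
      rw [hpd]
      exact (hprime _ (hidx g' k')).2 hv
    · show q * n + (a + (q - 1) * P + (P + P * A g k)) ≡ a [MOD q]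
      rw [hqP']
      have h1 : q * n + (a + q * P + P * A g k) = a + (q * (n + P) + P * A g k) := by ring
      rw [h1]
      have h2 : q ∣ q * (n + P) + P * A g k := dvd_add (dvd_mul_right _ _) (hqP.mul_right _)
      have h3 := Nat.ModEq.add_left a ((Nat.modEq_zero_iff_dvd).2 h2)
      rwa [add_zero] at h3
    · intro m hm hm1 hm2
      rw [hpd] at hm2 ⊢
      obtain ⟨i, hi⟩ : ∃ i, m = q * n + (a + (q - 1) * P + i) :=
        Nat.exists_eq_add_of_le (by omega : q * n + (a + (q - 1) * P) ≤ m) |>.imp (fun i h => by omega)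
      have hiN : i < N := by
        have := Nat.mul_le_mul_left P (hAY g' k')
        omega
      rw [hi] at hm
      have hiT := (hprime i hiN).1 hm
      obtain ⟨g₃, k₃, hi3⟩ := hT'A i hiT
      rcases hadj i hiT with h | h
      · left
        have h4 : A g₃ k₃ = A g k := by
          have h5 : P * A g₃ k₃ ≤ P * A g k := by omega
          have h6 : P * A g k < P * A g₃ k₃ + P := by omega
          have h7 := Nat.le_of_mul_le_mul_left h5 hP
          have h8 : P * A g k < P * (A g₃ k₃ + 1) := by rw [mul_add, mul_one]; exact h6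
          have h9 := lt_of_mul_lt_mul_left h8 (Nat.zero_le _)
          omega
        rw [hi, hi3, h4]
      · right
        have h4 : A g₃ k₃ = A g' k' := by
          have h5 : P * A g' k' ≤ P * A g₃ k₃ := by omega
          have h6 : P * A g₃ k₃ < P * A g' k' + P := by omega
          have h7 := Nat.le_of_mul_le_mul_left h5 hP
          have h8 : P * A g₃ k₃ < P * (A g' k' + 1) := by rw [mul_add, mul_one]; exact h6
          have h9 := lt_of_mul_lt_mul_left h8 (Nat.zero_le _)
          omega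
        rw [hi, hi3, h4]
  · intro n _ n' _ h
    have h1 : q * n + (a + (q - 1) * P + (P + P * A g k)) = q * n' + (a + (q - 1) * P + (P + P * A g k)) := h
    exact Nat.eq_of_mul_eq_mul_left (by omega : 0 < q) (by omega)

end Pool.Agent.HP27.TG
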