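import Mathlib
import Pool.Agent.HP27.TG.Half
import Pool.Agent.HP27.TG.Four2
import Pool.Agent.H40E9.SG.Main

set_option autoImplicit false

/-!
# Sums and differences of two gaps between consecutive primes
-/

namespace Pool.Agent.HP27.TG

open Finset Filter Classical
open Pool.Agent.H40E9.SG (Often)

/-- the numbers for which something holds for most `s` with respect to an ultrafilter meet the differences of any four
classes if the numbers for which it holds for `s` do, for all large `s` -/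
theorem fourAll_ultra {K L : ℕ} {D : ℕ → ℕ → Prop} (V : Ultrafilter ℕ) (hV : (V : Filter ℕ) ≤ atTop)
    (h : ∀ A : Fin 4 → Fin K → ℕ, Function.Injective (fun x : Fin 4 × Fin K => A x.1 x.2) →
      (∀ g k g' k', A g k ≡ A g' k' [MOD L]) →
      ∀ᶠ s : ℕ in atTop, ∃ g g' k k', g ≠ g' ∧ A g k < A g' k' ∧ D s (A g' k' - A g k)) :
    FourAll K L {k | ∀ᶠ s in (V : Filter ℕ), D s k} := by
  intro A hinj hmod
  by_contra hcon
  push Not at hcon
  have h1 : ∀ᶠ s in (V : Filter ℕ), ∀ g g' k k', g ≠ g' → A g k < A g' k' → ¬ D s (A g' k' - A g k) := by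
    simp only [eventually_all]
    intro g g' k k' hne hlt
    have := hcon g g' k k' hne hlt
    rw [Set.mem_ofPred_eq, ← Ultrafilter.eventually_not] at this
    exact this
  obtain ⟨s, hs1, hs2⟩ := (h1.and ((h A hinj hmod).filter_mono hV)).exists
  obtain ⟨g, g', k, k', hne, hlt, hD⟩ := hs2
  exact hs1 g g' k k' hne hlt hD

theorem gaps2 : ∃ B : ℕ, ∀ δ : ℝ, 0 < δ → ∃ c : ℝ, 0 < c ∧ ∀ P q a : ℕ, 0 < P → 6 ∣ P → 1 ≤ q → q ∣ P → a.Coprime q →
    ∀ X : ℕ → ℝ, Tendsto X atTop atTop → ∃ G : Set ℕ,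
      (∀ F : Finset ℕ, (∀ k ∈ F, k ∈ G) → ∃ᶠ s in atTop, ∀ k ∈ F, Often B q a P (X s) (P * k)) ∧
      ∃ M : ℕ, 0 < M ∧ ∀ N : ℕ, 0 < N → M ∣ N → ∀ α β : ℕ, 0 < α → 0 < β → ∃ T₀ : ℕ, ∀ T : ℕ, T₀ ≤ T → ∀ u : ℕ,
        (((Ioc u (u + T)).filter (fun h => (rep (dil (N * β) G) (dil (N * α) G) h : ℝ) < c * h)).card : ℝ) ≤ δ * T ∧
        ∀ Y : ℕ, 2 * (u + T) ≤ Y →
        (((Ioc u (u + T)).filter (fun h => (repd (dil (N * α) G) (dil (N * β) G) Y h : ℝ) < c * Y)).card : ℝ) ≤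
          δ * T := by
  obtain ⟨K, B, hK, h⟩ := four_any
  refine ⟨B, fun δ hδ => ?_⟩
  obtain ⟨c, hc, hsum⟩ := sums hK hδ
  refine ⟨c, hc, fun P q a hP h6 hq hqP haq X hX => ?_⟩
  obtain ⟨V, hV⟩ := Ultrafilter.exists_le (atTop : Filter ℕ)
  refine ⟨{k | ∀ᶠ s in (V : Filter ℕ), Often B q a P (X s) (P * k)}, ?_, ?_⟩
  · intro F hF
    have h1 : ∀ᶠ s in (V : Filter ℕ), ∀ k ∈ F, Often B q a P (X s) (P * k) := by
      rw [Filter.eventually_all_finset]
      exact hF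
    exact h1.frequently.filter_mono hV
  · exact hsum _ _ (Nat.factorial_pos (4 * K)) (fourAll_ultra V hV (fun A hinj hmod =>
      hX.eventually (h P q a hP h6 hq hqP haq A hinj (fun g k k' => hmod g k g k'))))

/-- the number of the elements of an interval which are not in a small set -/
theorem good_card {P : ℕ → Prop} {δ : ℝ} {u T : ℕ} (h : (((Ioc u (u + T)).filter P).card : ℝ) ≤ δ * T) :
    (1 - δ) * T ≤ ({k : ℕ | u < k ∧ k ≤ u + T ∧ ¬ P k}.ncard : ℝ) := by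
  have h1 : ((Ioc u (u + T)).filter P).card + ((Ioc u (u + T)).filter (fun k => ¬ P k)).card = T := by
    rw [card_filter_add_card_filter_not, Nat.card_Ioc]
    omega
  have h2 : {k : ℕ | u < k ∧ k ≤ u + T ∧ ¬ P k} = ((Ioc u (u + T)).filter (fun k => ¬ P k) : Finset ℕ) := by
    ext k
    rw [mem_coe, mem_filter, mem_Ioc]
    exact and_assoc.symm
  rw [h2, Set.ncard_coe_finset]
  have h3 : (((Ioc u (u + T)).filter P).card : ℝ) + (((Ioc u (u + T)).filter (fun k => ¬ P k)).card : ℝ) = T := by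
    exact_mod_cast h1
  linarith

end Pool.Agent.HP27.TG
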