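import Mathlib
import Pool.Agent.HP27.TG.FourS2
import Pool.Agent.HP27.TG.Gaps
import Pool.Agent.HP27.S3.Prop

set_option autoImplicit false

/-!
# Sums and differences of two differences of consecutive primes between consecutive cubes
-/

namespace Pool.Agent.HP27.TG

open Finset Filter Classical
open Pool.Agent.HP27.S3 (Iso RichP RichP_mono rich_of_spr)

/-- **four classes in any order, between consecutive cubes**: the constant depends on the classes only -/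
theorem four_cubes : ∃ K B : ℕ, 1 ≤ K ∧ ∀ P : ℕ, 0 < P → 6 ∣ P →
    ∀ A : Fin 4 → Fin K → ℕ, Function.Injective (fun x : Fin 4 × Fin K => A x.1 x.2) →
    (∀ g k k', A g k ≡ A g k' [MOD (4 * K).factorial]) → ∃ c : ℝ, 0 < c ∧ ∀ᶠ N : ℕ in atTop,
      ∃ g g' k k', g ≠ g' ∧ A g k < A g' k' ∧ RichP B P c (P * (A g' k' - A g k)) N := by
  obtain ⟨K, hK, h⟩ := four_spread_any
  refine ⟨K, 4 * K + 1 + 1, hK, fun P hP h6 A hA1 hA3 => ?_⟩
  obtain ⟨W, ν, c₀, C₀, hW, hc₀, hC₀, hev⟩ := h P hP h6 A hA1 hA3 1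
  obtain ⟨V, hV⟩ : ∃ V : ℕ, V = ν + P * ∑ g, ∑ k, A g k := ⟨_, rfl⟩
  have hAV : ∀ g k, ν + P * A g k ≤ V := by
    intro g k
    rw [hV]
    have h1 : A g k ≤ ∑ g, ∑ k, A g k :=
      calc A g k ≤ ∑ k, A g k := single_le_sum (f := fun k => A g k) (fun _ _ => Nat.zero_le _) (mem_univ k)
        _ ≤ _ := single_le_sum (f := fun g => ∑ k, A g k) (fun _ _ => Nat.zero_le _) (mem_univ g)
    have := Nat.mul_le_mul_left P h1
    omega
  have hN : Tendsto (fun X : ℕ => X ^ 3 / (2 * W)) atTop atTop := by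
    apply tendsto_atTop.2
    intro b
    filter_upwards [eventually_ge_atTop (2 * W * b + 1)] with X hX
    rw [Nat.le_div_iff_mul_le (by omega)]
    have h1 : X * 1 ≤ X * X ^ 2 := Nat.mul_le_mul_left _ (Nat.one_le_pow _ _ (by omega))
    have h2 : X * X ^ 2 = X ^ 3 := by ring
    have h3 : b * (2 * W) = 2 * W * b := by ring
    omega
  have h1 := rich_of_spr (4 * K + 1) W V c₀ C₀ hW hc₀ hC₀
  have hc₁ : 0 < c₀ / (64 * W * C₀) := by
    have : (0 : ℝ) < W := by exact_mod_cast hW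
    positivity
  refine ⟨c₀ / (64 * W * C₀), hc₁, ?_⟩
  filter_upwards [hN.eventually hev, h1] with s hs1 hs2
  obtain ⟨g, g', k, k', hg, hlt, R, hR, hiso⟩ := hs1
  refine ⟨g, g', k, k', hg, hlt, hs2 P (P * (A g' k' - A g k)) (ν + P * A g k) R ?_ (hAV g k) hR ?_⟩
  · have h2 := hAV g' k'
    have h3 : P * (A g' k' - A g k) ≤ P * A g' k' := Nat.mul_le_mul_left _ (Nat.sub_le _ _)
    omega
  · intro m hm
    have := hiso m hm
    rwa [Nat.add_assoc] at this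

theorem cubes2 : ∃ B : ℕ, ∀ δ : ℝ, 0 < δ → ∃ c : ℝ, 0 < c ∧ ∀ P : ℕ, 0 < P → 6 ∣ P →
    ∀ X : ℕ → ℕ, Tendsto X atTop atTop → ∃ G : Set ℕ,
      (∀ F : Finset ℕ, (∀ k ∈ F, k ∈ G) → ∃ κ : ℝ, 0 < κ ∧ ∃ᶠ s in atTop, ∀ k ∈ F, RichP B P κ (P * k) (X s)) ∧
      ∃ M : ℕ, 0 < M ∧ ∀ N : ℕ, 0 < N → M ∣ N → ∀ α β : ℕ, 0 < α → 0 < β → ∃ T₀ : ℕ, ∀ T : ℕ, T₀ ≤ T → ∀ u : ℕ,
        (((Ioc u (u + T)).filter (fun h => (rep (dil (N * β) G) (dil (N * α) G) h : ℝ) < c * h)).card : ℝ) ≤ δ * T ∧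
        ∀ Y : ℕ, 2 * (u + T) ≤ Y →
        (((Ioc u (u + T)).filter (fun h => (repd (dil (N * α) G) (dil (N * β) G) Y h : ℝ) < c * Y)).card : ℝ) ≤
          δ * T := by
  obtain ⟨K, B, hK, h⟩ := four_cubes
  refine ⟨B, fun δ hδ => ?_⟩
  obtain ⟨c, hc, hsum⟩ := sums hK hδ
  refine ⟨c, hc, fun P hP h6 X hX => ?_⟩
  obtain ⟨V, hV⟩ := Ultrafilter.exists_le (atTop : Filter ℕ)
  refine ⟨{k | ∃ κ : ℝ, 0 < κ ∧ ∀ᶠ s in (V : Filter ℕ), RichP B P κ (P * k) (X s)}, ?_, ?_⟩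
  · intro F hF
    have h0 : ∃ κ : ℝ, 0 < κ ∧ ∀ᶠ s in (V : Filter ℕ), ∀ k ∈ F, RichP B P κ (P * k) (X s) := by
      induction F using Finset.induction_on with
      | empty => exact ⟨1, one_pos, Eventually.of_forall fun s k hk => absurd hk (notMem_empty k)⟩
      | insert a F _ ih =>
        obtain ⟨κ₁, hκ₁, h1⟩ := ih fun k hk => hF k (mem_insert_of_mem hk)
        obtain ⟨κ₂, hκ₂, h2⟩ := hF a (mem_insert_self a F)
        refine ⟨min κ₁ κ₂, lt_min hκ₁ hκ₂, ?_⟩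
        filter_upwards [h1, h2] with s hs1 hs2 k hk
        rcases mem_insert.1 hk with rfl | hk
        · exact RichP_mono hs2 (min_le_right _ _)
        · exact RichP_mono (hs1 k hk) (min_le_left _ _)
    obtain ⟨κ, hκ, h1⟩ := h0
    exact ⟨κ, hκ, h1.frequently.filter_mono hV⟩
  · apply hsum _ _ (Nat.factorial_pos (4 * K))
    intro A hinj hmod
    obtain ⟨κ, hκ, hev⟩ := h P hP h6 A hinj (fun g k k' => hmod g k g k')
    by_contra hcon
    push Not at hcon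
    have h1 : ∀ᶠ s in (V : Filter ℕ), ∀ g g' k k', g ≠ g' → A g k < A g' k' →
        ¬ RichP B P κ (P * (A g' k' - A g k)) (X s) := by
      simp only [eventually_all]
      intro g g' k k' hne hlt
      have h2 := hcon g g' k k' hne hlt
      rw [Ultrafilter.eventually_not]
      intro h3
      exact h2 ⟨κ, hκ, h3⟩
    obtain ⟨s, hs1, hs2⟩ := (h1.and ((hX.eventually hev).filter_mono hV)).exists
    obtain ⟨g, g', k, k', hne, hlt, hD⟩ := hs2
    exact hs1 g g' k k' hne hlt hD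

end Pool.Agent.HP27.TG
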